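import Pool.Agent.Helper83_DPB.Stmts

/-!
Squad DPB, module BFS: the bounded measurable functions with equal limits along the pairs of
ultrafilters form a Boolean function space.
-/

open Filter Topology Set

namespace Pool.Agent.Helper83_DPB.H2

variable {Ω ι : Type}

theorem pb_alg [MeasurableSpace Ω] (P Q : ι → Ultrafilter Ω) : IsAlg (PB P Q) where
  empty := ⟨MeasurableSet.empty, fun i => by simp⟩
  compl := fun b hb => ⟨hb.1.compl, fun i => by
    rw [Ultrafilter.compl_mem_iff_notMem, Ultrafilter.compl_mem_iff_notMem, hb.2 i]⟩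
  union := fun b hb c hc => ⟨hb.1.union hc.1, fun i => by
    rw [Ultrafilter.union_mem_iff, Ultrafilter.union_mem_iff, hb.2 i, hc.2 i]⟩

theorem ind_mem (b : Set Ω) (f : LI Ω) : Memℓp (b.indicator (f : Ω → ℂ)) ⊤ := by
  refine memℓp_infty ⟨‖f‖, ?_⟩
  rintro _ ⟨x, rfl⟩
  exact (norm_indicator_le_norm_self _ _).trans (li_bdd f x)

/-- the product of a bounded function with an indicator -/
noncomputable def cut (b : Set Ω) (f : LI Ω) : LI Ω := ⟨b.indicator (f : Ω → ℂ), ind_mem b f⟩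

theorem cut_coe (b : Set Ω) (f : LI Ω) : ((cut b f : LI Ω) : Ω → ℂ) = b.indicator (f : Ω → ℂ) :=
  rfl

theorem LU_cut_mem {P : Ultrafilter Ω} {b : Set Ω} (f : LI Ω) (h : b ∈ P) :
    LU P (cut b f) = LU P f := by
  refine tendsto_nhds_unique (LU_spec P (cut b f)) ?_
  refine (LU_spec P f).congr' ?_
  filter_upwards [h] with t ht
  rw [cut_coe, indicator_of_mem ht]

theorem LU_cut_not {P : Ultrafilter Ω} {b : Set Ω} (f : LI Ω) (h : b ∉ P) :
    LU P (cut b f) = 0 := by
  refine tendsto_nhds_unique (LU_spec P (cut b f)) ?_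
  refine tendsto_const_nhds.congr' ?_
  have h' := Ultrafilter.compl_mem_iff_notMem.2 h
  filter_upwards [h'] with t ht
  rw [cut_coe, indicator_of_notMem ht]

theorem one_mem : Memℓp (fun _ : Ω => (1 : ℂ)) ⊤ := by
  refine memℓp_infty ⟨1, ?_⟩
  rintro _ ⟨x, rfl⟩
  simp

/-- the constant function one -/
noncomputable def one : LI Ω := ⟨fun _ => (1 : ℂ), one_mem⟩

theorem LU_one (P : Ultrafilter Ω) : LU P one = 1 := by
  refine tendsto_nhds_unique (LU_spec P one) ?_
  exact tendsto_const_nhds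

section

variable [MeasurableSpace Ω]

theorem cut_PA {P Q : ι → Ultrafilter Ω} {b : Set Ω} (hb : b ∈ PB P Q) {f : LI Ω}
    (hf : f ∈ PA P Q) : cut b f ∈ PA P Q := by
  refine ⟨?_, fun i => ?_⟩
  · have h : Measurable (f : Ω → ℂ) := hf.1
    exact h.indicator hb.1
  · by_cases h : b ∈ P i
    · rw [LU_cut_mem f h, LU_cut_mem f ((hb.2 i).1 h)]
      exact hf.2 i
    · rw [LU_cut_not f h, LU_cut_not f (fun h' => h ((hb.2 i).2 h'))]

/-- superlevel sets at thresholds avoiding the limits -/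
theorem level {P Q : ι → Ultrafilter Ω} {g : Ω → ℝ} (hg : Measurable g) {l : ι → ℝ}
    (hP : ∀ i, Tendsto g (P i) (𝓝 (l i))) (hQ : ∀ i, Tendsto g (Q i) (𝓝 (l i))) {s : ℝ}
    (hs : ∀ i, s ≠ l i) : {t | s ≤ g t} ∈ PB P Q := by
  refine ⟨measurableSet_le measurable_const hg, fun i => ?_⟩
  rcases lt_or_gt_of_ne (hs i) with h | h
  · have h1 : {t | s ≤ g t} ∈ P i := by
      filter_upwards [(hP i).eventually (lt_mem_nhds h)] with t ht using le_of_lt ht
    have h2 : {t | s ≤ g t} ∈ Q i := by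
      filter_upwards [(hQ i).eventually (lt_mem_nhds h)] with t ht using le_of_lt ht
    exact ⟨fun _ => h2, fun _ => h1⟩
  · have h1 : {t | s ≤ g t} ∉ P i := by
      rw [← Ultrafilter.compl_mem_iff_notMem]
      filter_upwards [(hP i).eventually (gt_mem_nhds h)] with t ht
      simpa using ht
    have h2 : {t | s ≤ g t} ∉ Q i := by
      rw [← Ultrafilter.compl_mem_iff_notMem]
      filter_upwards [(hQ i).eventually (gt_mem_nhds h)] with t ht
      simpa using ht
    exact ⟨fun h' => absurd h' h1, fun h' => absurd h' h2⟩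

omit [MeasurableSpace Ω] in
theorem alg_inter {B : Set (Set Ω)} (hB : IsAlg B) {b c : Set Ω} (hb : b ∈ B) (hc : c ∈ B) :
    b ∩ c ∈ B := by
  have h := hB.compl _ (hB.union _ (hB.compl _ hb) _ (hB.compl _ hc))
  rwa [compl_union, compl_compl, compl_compl] at h

/-- floor sets -/
theorem floor_mem {P Q : ι → Ultrafilter Ω} {g : Ω → ℝ} (hg : Measurable g) {l : ι → ℝ}
    (hP : ∀ i, Tendsto g (P i) (𝓝 (l i))) (hQ : ∀ i, Tendsto g (Q i) (𝓝 (l i))) {s h : ℝ}
    (h0 : 0 < h) (hs : ∀ (k : ℤ) i, s + k * h ≠ l i) (k : ℤ) :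
    {t | ⌊(g t - s) / h⌋ = k} ∈ PB P Q := by
  have e : {t | ⌊(g t - s) / h⌋ = k} = {t | s + k * h ≤ g t} ∩ {t | s + (k + 1 : ℤ) * h ≤ g t}ᶜ := by
    ext t
    simp only [mem_ofPred_eq, mem_inter_iff, mem_compl_iff, not_le, Int.floor_eq_iff]
    rw [le_div_iff₀ h0, div_lt_iff₀ h0]
    push_cast
    constructor
    · rintro ⟨h1, h2⟩
      constructor <;> linarith
    · rintro ⟨h1, h2⟩
      constructor <;> linarith
  rw [e]
  exact alg_inter (pb_alg P Q) (level hg hP hQ (hs k))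
    ((pb_alg P Q).compl _ (level hg hP hQ (hs (k + 1))))

theorem exists_offset {D : Set ℝ} (hD : D.Countable) (h : ℝ) :
    ∃ s : ℝ, ∀ k : ℤ, s + k * h ∉ D := by
  have hc : (⋃ k : ℤ, (fun x : ℝ => x - k * h) '' D).Countable :=
    countable_iUnion fun k => hD.image _
  have hne : (⋃ k : ℤ, (fun x : ℝ => x - k * h) '' D) ≠ univ := by
    intro he
    rw [he] at hc
    exact not_countable_iff.2 (inferInstance : Uncountable ℝ) (countable_univ_iff.1 hc)
  obtain ⟨s, hs⟩ := (ne_univ_iff_exists_notMem _).1 hne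
  refine ⟨s, fun k hk => hs ?_⟩
  rw [mem_iUnion]
  exact ⟨k, s + k * h, hk, by ring⟩

theorem floor_close {x s h : ℝ} (h0 : 0 < h) : |x - (s + ⌊(x - s) / h⌋ * h)| ≤ h := by
  have h1 := Int.floor_le ((x - s) / h)
  have h2 := Int.lt_floor_add_one ((x - s) / h)
  rw [le_div_iff₀ h0] at h1
  rw [div_lt_iff₀ h0] at h2
  rw [abs_le]
  constructor <;> nlinarith

theorem floor_bdd {x s h M : ℝ} (h0 : 0 < h) (hx : |x| ≤ M) :
    ⌊(x - s) / h⌋ ∈ Icc (⌊(-M - s) / h⌋) (⌊(M - s) / h⌋) := by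
  rw [abs_le] at hx
  refine ⟨Int.floor_le_floor ?_, Int.floor_le_floor ?_⟩
  · exact div_le_div_of_nonneg_right (by linarith) h0.le
  · exact div_le_div_of_nonneg_right (by linarith) h0.le

theorem approx_PA [Countable ι] {P Q : ι → Ultrafilter Ω} {f : LI Ω} (hf : f ∈ PA P Q) {ε : ℝ}
    (hε : 0 < ε) : ∃ (n : ℕ) (p : Ω → Fin n) (z : Fin n → ℂ),
    (∀ i, p ⁻¹' {i} ∈ PB P Q) ∧ ∀ t, ‖(f : Ω → ℂ) t - z (p t)‖ ≤ ε := by
  set h : ℝ := ε / 2 with hh
  have h0 : 0 < h := by positivity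
  set D : Set ℝ := range (fun i => (LU (P i) f).re) ∪ range (fun i => (LU (P i) f).im) with hD
  have hDc : D.Countable := (countable_range _).union (countable_range _)
  obtain ⟨s, hs⟩ := exists_offset hDc h
  have hm : Measurable (f : Ω → ℂ) := hf.1
  have hPre : ∀ i, Tendsto (fun t => ((f : Ω → ℂ) t).re) (P i) (𝓝 (LU (P i) f).re) := fun i =>
    (Complex.continuous_re.tendsto _).comp (LU_spec (P i) f)
  have hQre : ∀ i, Tendsto (fun t => ((f : Ω → ℂ) t).re) (Q i) (𝓝 (LU (P i) f).re) := fun i => by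
    rw [hf.2 i]
    exact (Complex.continuous_re.tendsto _).comp (LU_spec (Q i) f)
  have hPim : ∀ i, Tendsto (fun t => ((f : Ω → ℂ) t).im) (P i) (𝓝 (LU (P i) f).im) := fun i =>
    (Complex.continuous_im.tendsto _).comp (LU_spec (P i) f)
  have hQim : ∀ i, Tendsto (fun t => ((f : Ω → ℂ) t).im) (Q i) (𝓝 (LU (P i) f).im) := fun i => by
    rw [hf.2 i]
    exact (Complex.continuous_im.tendsto _).comp (LU_spec (Q i) f)
  let q : Ω → ℤ × ℤ := fun t =>
    (⌊(((f : Ω → ℂ) t).re - s) / h⌋, ⌊(((f : Ω → ℂ) t).im - s) / h⌋)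
  have hfin : (range q).Finite := by
    refine Set.Finite.subset (((finite_Icc (⌊(-‖f‖ - s) / h⌋) (⌊(‖f‖ - s) / h⌋)).prod
      (finite_Icc (⌊(-‖f‖ - s) / h⌋) (⌊(‖f‖ - s) / h⌋)))) ?_
    rintro _ ⟨t, rfl⟩
    exact ⟨floor_bdd h0 ((Complex.abs_re_le_norm _).trans (li_bdd f t)),
      floor_bdd h0 ((Complex.abs_im_le_norm _).trans (li_bdd f t))⟩
  have : Finite (range q) := hfin
  obtain ⟨n, ⟨e⟩⟩ := Finite.exists_equiv_fin (range q)
  refine ⟨n, fun t => e ⟨q t, mem_range_self t⟩,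
    fun i => ⟨s + ((e.symm i).1.1 : ℤ) * h, s + ((e.symm i).1.2 : ℤ) * h⟩, fun i => ?_,
    fun t => ?_⟩
  · have e1 : (fun t => e ⟨q t, mem_range_self t⟩) ⁻¹' {i} =
        {t | ⌊(((f : Ω → ℂ) t).re - s) / h⌋ = (e.symm i).1.1} ∩
        {t | ⌊(((f : Ω → ℂ) t).im - s) / h⌋ = (e.symm i).1.2} := by
      ext t
      simp only [mem_preimage, mem_singleton_iff, mem_inter_iff, mem_ofPred_eq]
      rw [← Equiv.eq_symm_apply, Subtype.ext_iff, Prod.ext_iff]
    rw [e1]
    refine alg_inter (pb_alg P Q) ?_ ?_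
    · exact floor_mem (Complex.measurable_re.comp hm) hPre hQre h0
        (fun k i hki => hs k (by rw [hki]; exact Or.inl (mem_range_self i))) _
    · exact floor_mem (Complex.measurable_im.comp hm) hPim hQim h0
        (fun k i hki => hs k (by rw [hki]; exact Or.inr (mem_range_self i))) _
  · simp only [Equiv.symm_apply_apply]
    refine (Complex.norm_le_abs_re_add_abs_im _).trans ?_
    have h1 := floor_close (x := ((f : Ω → ℂ) t).re) (s := s) h0
    have h2 := floor_close (x := ((f : Ω → ℂ) t).im) (s := s) h0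
    simp only [Complex.sub_re, Complex.sub_im]
    have h3 : h + h = ε := by rw [hh]; ring
    calc _ ≤ h + h := add_le_add h1 h2
      _ = ε := h3

end

/-- module BFS -/
theorem bfs : BfsStmt := by
  intro Ω ι _ _ P Q
  refine ⟨{
    B := PB P Q
    alg := pb_alg P Q
    ev := { toFun := fun a => ((a : LI Ω) : Ω → ℂ)
            map_add' := fun a b => rfl
            map_smul' := fun c a => rfl }
    ev_le := fun a t => li_bdd (a : LI Ω) t
    le_ev := fun a C hC h => lp.norm_le_of_forall_le hC h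
    one_ex := ⟨⟨one, ?_, ?_⟩, fun t => rfl⟩
    cut_ex := fun b hb a => ⟨⟨cut b (a : LI Ω), cut_PA hb a.2⟩, fun t => rfl⟩
    approx := fun a ε hε => approx_PA a.2 hε }, rfl, fun a t => rfl⟩
  · exact measurable_const
  · intro i
    rw [LU_one, LU_one]

end Pool.Agent.Helper83_DPB.H2
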