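import Pool.Agent.Helper83_DPB.Stmts

/-!
Squad DPB, module ND: the space of the example does not have the Dunford-Pettis property.
-/

open Filter Topology Set

namespace Pool.Agent.Helper83_DPB.H2

/-- a sequence all of whose long sign sums are small tends to zero weakly -/
theorem weak_null {E : Type} [NormedAddCommGroup E] [NormedSpace ℂ E] (x : ℕ → E)
    (h : ∀ ε > 0, ∃ N : ℕ, 0 < N ∧ ∀ F : Finset ℕ, F.card = N → ∀ s : ℕ → ℚ,
      (∀ n, s n = 1 ∨ s n = -1) → ‖∑ n ∈ F, ((s n : ℚ) : ℂ) • x n‖ ≤ ε * N)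
    (g : E →L[ℂ] ℂ) : Tendsto (fun n => g (x n)) atTop (𝓝 0) := by
  have key : ∀ π : ℂ →L[ℝ] ℝ, (∀ z, |π z| ≤ ‖z‖) →
      Tendsto (fun n => |π (g (x n))|) atTop (𝓝 0) := by
    intro π hπ
    rw [Metric.tendsto_atTop]
    intro d hd
    by_contra hcon
    push Not at hcon
    have hinf : {n | d ≤ |π (g (x n))|}.Infinite := by
      rw [Set.infinite_iff_exists_gt]
      intro N
      obtain ⟨n, hn, hn'⟩ := hcon (N + 1)
      refine ⟨n, ?_, by omega⟩
      rw [Real.dist_eq, sub_zero, abs_abs] at hn'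
      exact hn'
    obtain ⟨N, hN, hN'⟩ := h (d / (2 * (‖g‖ + 1))) (by positivity)
    obtain ⟨F, hF, hFc⟩ := hinf.exists_subset_card_eq N
    let s : ℕ → ℚ := fun n => if 0 ≤ π (g (x n)) then 1 else -1
    have hs : ∀ n, s n = 1 ∨ s n = -1 := fun n => by
      by_cases h0 : 0 ≤ π (g (x n))
      · left; simp [s, h0]
      · right; simp only [s, if_neg h0]
    have h1 := hN' F hFc s hs
    have h2 : π (g (∑ n ∈ F, ((s n : ℚ) : ℂ) • x n)) = ∑ n ∈ F, |π (g (x n))| := by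
      rw [map_sum, map_sum]
      refine Finset.sum_congr rfl fun n _ => ?_
      rw [map_smul]
      have e : ((s n : ℚ) : ℂ) • g (x n) = ((s n : ℚ) : ℝ) • g (x n) := by
        rw [smul_eq_mul, Complex.real_smul]
        push_cast
        rfl
      rw [e, map_smul]
      by_cases h0 : 0 ≤ π (g (x n))
      · simp [s, h0, abs_of_nonneg h0]
      · simp only [s, if_neg h0]
        rw [abs_of_neg (not_le.1 h0)]
        simp
    have h3 : (N : ℝ) * d ≤ ∑ n ∈ F, |π (g (x n))| := by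
      have := Finset.card_nsmul_le_sum F (fun n => |π (g (x n))|) d (fun n hn => hF hn)
      rwa [hFc, nsmul_eq_mul] at this
    have h4 : ∑ n ∈ F, |π (g (x n))| ≤ ‖g‖ * (d / (2 * (‖g‖ + 1)) * N) := by
      rw [← h2]
      refine (le_abs_self _).trans ((hπ _).trans ((g.le_opNorm _).trans ?_))
      exact mul_le_mul_of_nonneg_left h1 (norm_nonneg _)
    have h5 : ‖g‖ * (d / (2 * (‖g‖ + 1)) * N) ≤ N * (d / 2) := by
      have hg : 0 < ‖g‖ + 1 := by positivity
      have e : ‖g‖ * (d / (2 * (‖g‖ + 1)) * N) = (‖g‖ / (‖g‖ + 1)) * (N * (d / 2)) := by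
        field_simp
      rw [e]
      have : ‖g‖ / (‖g‖ + 1) ≤ 1 := by
        rw [div_le_one hg]
        linarith
      exact mul_le_of_le_one_left (by positivity) this
    have hN0 : (0 : ℝ) < N := by exact_mod_cast hN
    nlinarith
  have hre := key Complex.reCLM (fun z => Complex.abs_re_le_norm z)
  have him := key Complex.imCLM (fun z => Complex.abs_im_le_norm z)
  refine squeeze_zero_norm (fun n => Complex.norm_le_abs_re_add_abs_im (g (x n))) ?_
  simpa using hre.add him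

theorem u1_XX (n : ℕ) : U1 n ∈ XX :=
  Submodule.le_topologicalClosure _
    (Submodule.mem_sup_right (Submodule.subset_span (Or.inl (mem_range_self n))))

/-- the coordinate functions as elements of the space -/
noncomputable def xU (n : ℕ) : XX := ⟨U1 n, u1_XX n⟩

theorem sum_U1_norm (hub : UbStmt) (F : Finset ℕ) (s : ℕ → ℚ) (hs : ∀ n, s n = 1 ∨ s n = -1)
    (k : ℕ) : ‖∑ n ∈ F, ((s n : ℚ) : ℂ) • xU n‖ ≤
      k * Real.sqrt F.card + (F.card : ℝ) / (k + 1) := by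
  have e : ‖∑ n ∈ F, ((s n : ℚ) : ℂ) • xU n‖ = ‖∑ n ∈ F, ((s n : ℚ) : ℂ) • U1 n‖ := by
    rw [← Submodule.norm_coe]
    congr 1
    push_cast
    rfl
  rw [e]
  refine lp.norm_le_of_forall_le (by positivity) (fun x => ?_)
  have e2 : ((∑ n ∈ F, ((s n : ℚ) : ℂ) • U1 n : LI Pt) : Pt → ℂ) x =
      ∑ n ∈ F, ((s n : ℚ) : ℂ) * u1 n x := by
    rw [lp.coeFn_sum, Finset.sum_apply]
    rfl
  rw [e2]
  refine (norm_sum_le _ _).trans ?_
  refine le_trans (Finset.sum_le_sum fun n _ => ?_) (hub.2.2 x F k)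
  rw [norm_mul]
  rcases hs n with h | h <;> simp [h]

/-- the functional given by the jump of the symbol s at the root -/
noncomputable def kap (s : Sym) : LI Pt →L[ℂ] ℂ := LU (qF ([] ++ [s])) - LU (pF [])

theorem kap_AA {s : Sym} (hs : isBlk s) {a : LI Pt} (ha : a ∈ AA) : kap s a = 0 := by
  have h := ha.2 (([] : List Sym), ⟨s, hs⟩)
  change LU (pF []) a = LU (qF ([] ++ [s])) a at h
  change LU (qF ([] ++ [s])) a - LU (pF []) a = 0
  rw [h, sub_self]

theorem kap_UU (hj : JmpStmt) {s : Sym} (hs : isBlk s) (v : VV) : kap s (UU v) = prg 0 s v :=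
  hj [] s hs v

theorem kap_le (s : Sym) (x : LI Pt) : ‖kap s x‖ ≤ 2 * ‖x‖ := by
  have h1 := LU_norm (qF ([] ++ [s])) x
  have h2 := LU_norm (pF []) x
  calc ‖kap s x‖ = ‖LU (qF ([] ++ [s])) x - LU (pF []) x‖ := rfl
    _ ≤ ‖LU (qF ([] ++ [s])) x‖ + ‖LU (pF []) x‖ := norm_sub_le _ _
    _ ≤ 2 * ‖x‖ := by linarith

theorem prg_l2 {b : ℕ →₀ ℚ} (hb : adm 0 b) (k : ℕ) (v : VV) :
    prg 0 (Sym.l2 b k) v = ∑ n ∈ b.support, ((b n : ℚ) : ℂ) * v.1 n := by
  have h2 : (v.2.sum fun n a => a * cf2 0 (Sym.l2 b k) n) = 0 := by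
    simp [cf2]
  have h1 : (v.1.sum fun n a => a * cf1 0 (Sym.l2 b k) n) =
      ∑ n ∈ v.1.support, ((b n : ℚ) : ℂ) * v.1 n := by
    rw [Finsupp.sum]
    refine Finset.sum_congr rfl fun n _ => ?_
    simp only [cf1, if_pos hb]
    rw [mul_comm]
  rw [prg, h1, h2, add_zero]
  have ha : ∑ n ∈ v.1.support, ((b n : ℚ) : ℂ) * v.1 n =
      ∑ n ∈ v.1.support ∪ b.support, ((b n : ℚ) : ℂ) * v.1 n := by
    refine Finset.sum_subset Finset.subset_union_left fun n _ hn => ?_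
    rw [Finsupp.notMem_support_iff.1 hn, mul_zero]
  have hb' : ∑ n ∈ b.support, ((b n : ℚ) : ℂ) * v.1 n =
      ∑ n ∈ v.1.support ∪ b.support, ((b n : ℚ) : ℂ) * v.1 n := by
    refine Finset.sum_subset Finset.subset_union_right fun n _ hn => ?_
    rw [Finsupp.notMem_support_iff.1 hn, Rat.cast_zero, zero_mul]
  rw [ha, hb']

theorem adm_single (n : ℕ) : adm 0 (Finsupp.single n 1) := by
  refine ⟨fun m _ => Nat.zero_le m, ?_, fun m => ?_⟩
  · rw [Finsupp.support_single n one_ne_zero, Finset.sum_singleton]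
    simp
  · rw [Finsupp.single_apply]
    split_ifs <;> simp

/-- the unit blocks -/
noncomputable def eb (n : ℕ) : Sym := Sym.l2 (Finsupp.single n 1) 0

theorem blk_eb (n : ℕ) : isBlk (eb n) := trivial

theorem prg_eb (n : ℕ) (v : VV) : prg 0 (eb n) v = v.1 n := by
  rw [eb, prg_l2 (adm_single n), Finsupp.support_single n one_ne_zero,
    Finset.sum_singleton]
  simp

theorem UU_single (n : ℕ) : UU (Finsupp.single n 1, 0) = U1 n := by
  simp [UU]

/-- the functionals -/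
noncomputable def fU (n : ℕ) : XX →L[ℂ] ℂ := (kap (eb n)).comp XX.subtypeL

theorem fU_xU (hj : JmpStmt) (n : ℕ) : fU n (xU n) = 1 := by
  change kap (eb n) (U1 n) = 1
  rw [← UU_single n, kap_UU hj (blk_eb n), prg_eb]
  simp

/-- a functional on the bounded functions vanishing on the generators vanishes on the space -/
theorem vanish (hx : XmStmt) (D : LI Pt →L[ℂ] ℂ) (hA : ∀ a ∈ AA, D a = 0)
    (hU : ∀ v, D (UU v) = 0) (x : XX) : D x = 0 := by
  have h : ∀ ε > 0, ‖D x‖ ≤ ‖D‖ * ε := by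
    intro ε hε
    obtain ⟨v, a, ha, h⟩ := hx.2.2 x x.2 ε hε
    have e : D x = D ((x : LI Pt) - a - UU v) := by
      rw [map_sub, map_sub, hA a ha, hU v, sub_zero, sub_zero]
    rw [e]
    exact (D.le_opNorm _).trans (mul_le_mul_of_nonneg_left h.le (norm_nonneg _))
  have h2 : ‖D x‖ ≤ 0 := by
    refine le_of_forall_pos_le_add fun ε hε => ?_
    have h3 := h (ε / (‖D‖ + 1)) (by positivity)
    have hD : 0 < ‖D‖ + 1 := by positivity
    refine h3.trans ?_
    rw [zero_add, mul_div_assoc', div_le_iff₀ hD]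
    nlinarith [norm_nonneg D]
  exact norm_le_zero_iff.1 h2

/-- the averaged block -/
noncomputable def avb (F : Finset ℕ) (s : ℕ → ℚ) (L : ℕ) : ℕ →₀ ℚ :=
  Finsupp.onFinset F (fun n => if n ∈ F then s n / L else 0) (fun n hn => by
    by_contra h
    exact hn (if_neg h))

theorem avb_apply (F : Finset ℕ) (s : ℕ → ℚ) (L : ℕ) (n : ℕ) :
    avb F s L n = if n ∈ F then s n / L else 0 := rfl

theorem avb_supp (F : Finset ℕ) (s : ℕ → ℚ) (L : ℕ) : (avb F s L).support ⊆ F :=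
  Finsupp.support_onFinset_subset

theorem adm_avb (F : Finset ℕ) (s : ℕ → ℚ) (hs : ∀ n, s n = 1 ∨ s n = -1) (L : ℕ) (hL : 0 < L)
    (hF : F.card = L ^ 2) : adm 0 (avb F s L) := by
  have hLq : (0 : ℚ) < L := by exact_mod_cast hL
  have hs2 : ∀ n, (s n) ^ 2 = 1 := fun n => by rcases hs n with h | h <;> simp [h]
  have hsa : ∀ n, |s n| = 1 := fun n => by rcases hs n with h | h <;> simp [h]
  refine ⟨fun m _ => Nat.zero_le m, ?_, fun n => ?_⟩
  · calc ∑ n ∈ (avb F s L).support, (avb F s L n) ^ 2 ≤ ∑ n ∈ F, (avb F s L n) ^ 2 :=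
          Finset.sum_le_sum_of_subset_of_nonneg (avb_supp F s L) fun n _ _ => sq_nonneg _
      _ = ∑ n ∈ F, 1 / (L : ℚ) ^ 2 := by
          refine Finset.sum_congr rfl fun n hn => ?_
          rw [avb_apply, if_pos hn, div_pow, hs2]
      _ = 1 := by
          rw [Finset.sum_const, hF, nsmul_eq_mul]
          push_cast
          field_simp
      _ ≤ 1 := le_rfl
  · rw [avb_apply]
    split_ifs
    · rw [abs_div, hsa, Nat.abs_cast]
      have : (1 : ℚ) ≤ L := by exact_mod_cast hL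
      simp only [Nat.cast_zero, zero_add, mul_one]
      rw [div_le_one hLq]
      exact this
    · simp

theorem sum_fU (hj : JmpStmt) (hx : XmStmt) (F : Finset ℕ) (s : ℕ → ℚ)
    (hs : ∀ n, s n = 1 ∨ s n = -1) (L : ℕ) (hL : 0 < L) (hF : F.card = L ^ 2) :
    ‖∑ n ∈ F, ((s n : ℚ) : ℂ) • fU n‖ ≤ 2 * L := by
  have hadm := adm_avb F s hs L hL hF
  set b := avb F s L with hb
  set D : LI Pt →L[ℂ] ℂ := (∑ n ∈ F, ((s n : ℚ) : ℂ) • kap (eb n)) - (L : ℂ) • kap (Sym.l2 b 0)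
    with hD
  have hblk : isBlk (Sym.l2 b 0) := trivial
  have hLc : (L : ℂ) ≠ 0 := by exact_mod_cast hL.ne'
  have Dap : ∀ x, D x = (∑ n ∈ F, ((s n : ℚ) : ℂ) * kap (eb n) x) -
      (L : ℂ) * kap (Sym.l2 b 0) x := by
    intro x
    rw [hD]
    simp
  have hA : ∀ a ∈ AA, D a = 0 := by
    intro a ha
    rw [Dap, kap_AA hblk ha, mul_zero, sub_zero]
    refine Finset.sum_eq_zero fun n _ => ?_
    rw [kap_AA (blk_eb n) ha, mul_zero]
  have hU : ∀ v, D (UU v) = 0 := by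
    intro v
    rw [Dap, kap_UU hj hblk, prg_l2 hadm]
    have e1 : ∑ n ∈ b.support, ((b n : ℚ) : ℂ) * v.1 n = ∑ n ∈ F, ((b n : ℚ) : ℂ) * v.1 n := by
      refine Finset.sum_subset (avb_supp F s L) fun n _ hn => ?_
      rw [Finsupp.notMem_support_iff.1 hn, Rat.cast_zero, zero_mul]
    rw [e1, Finset.mul_sum, ← Finset.sum_sub_distrib]
    refine Finset.sum_eq_zero fun n hn => ?_
    rw [kap_UU hj (blk_eb n), prg_eb, hb, avb_apply, if_pos hn]
    push_cast
    field_simp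
    ring
  refine ContinuousLinearMap.opNorm_le_bound _ (by positivity) fun x => ?_
  have h0 := vanish hx D hA hU x
  rw [Dap, sub_eq_zero] at h0
  have e2 : (∑ n ∈ F, ((s n : ℚ) : ℂ) • fU n) x = ∑ n ∈ F, ((s n : ℚ) : ℂ) * kap (eb n) x := by
    rw [sum_apply]
    rfl
  rw [e2, h0, norm_mul]
  have h1 := kap_le (Sym.l2 b 0) (x : LI Pt)
  have e3 : ‖(L : ℂ)‖ = L := by simp
  rw [e3]
  calc (L : ℝ) * ‖kap (Sym.l2 b 0) (x : LI Pt)‖ ≤ L * (2 * ‖(x : LI Pt)‖) :=
        mul_le_mul_of_nonneg_left h1 (by positivity)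
    _ = 2 * L * ‖x‖ := by rw [Submodule.norm_coe]; ring

/-- module ND -/
theorem nd (hj : JmpStmt) (hub : UbStmt) (hx : XmStmt) : NdStmt := by
  intro hdp
  have h1 : ∀ g : XX →L[ℂ] ℂ, Tendsto (fun n => g (xU n)) atTop (𝓝 0) := by
    refine weak_null xU fun ε hε => ?_
    obtain ⟨k, hk⟩ := exists_nat_gt (2 / ε)
    obtain ⟨M, hM⟩ := exists_nat_gt (2 * k / ε)
    have hk0 : (0 : ℝ) < k := lt_trans (by positivity) hk
    have hM0 : (0 : ℝ) < M := lt_trans (by positivity) hM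
    have hMn : 0 < M := by exact_mod_cast hM0
    refine ⟨M ^ 2, by positivity, fun F hF s hs => ?_⟩
    refine (sum_U1_norm hub F s hs k).trans ?_
    rw [hF]
    push_cast
    rw [Real.sqrt_sq hM0.le]
    rw [div_lt_iff₀ hε] at hk hM
    have h3 : (M : ℝ) ^ 2 / (k + 1) ≤ ε / 2 * M ^ 2 := by
      rw [div_le_iff₀ (by positivity)]
      have : 1 ≤ ε / 2 * (k + 1) := by nlinarith
      nlinarith [sq_nonneg (M : ℝ)]
    have h4 : (k : ℝ) * M ≤ ε / 2 * M ^ 2 := by nlinarith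
    calc (k : ℝ) * M + M ^ 2 / (k + 1) ≤ ε / 2 * M ^ 2 + ε / 2 * M ^ 2 := add_le_add h4 h3
      _ = ε * M ^ 2 := by ring
  have h2 : ∀ xi : (XX →L[ℂ] ℂ) →L[ℂ] ℂ, Tendsto (fun n => xi (fU n)) atTop (𝓝 0) := by
    refine weak_null fU fun ε hε => ?_
    obtain ⟨L, hL⟩ := exists_nat_gt (2 / ε)
    have hL0 : (0 : ℝ) < L := lt_trans (by positivity) hL
    have hLn : 0 < L := by exact_mod_cast hL0
    refine ⟨L ^ 2, by positivity, fun F hF s hs => ?_⟩
    refine (sum_fU hj hx F s hs L hLn hF).trans ?_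
    push_cast
    rw [div_lt_iff₀ hε] at hL
    nlinarith
  have h3 := hdp xU fU h1 h2
  have h4 : Tendsto (fun n => fU n (xU n)) atTop (𝓝 1) := by
    simp only [fU_xU hj]
    exact tendsto_const_nhds
  exact zero_ne_one (tendsto_nhds_unique h3 h4)

end Pool.Agent.Helper83_DPB.H2
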